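import Pool.Agent.N971.MF.EUL

/-!
# Project SN (helper818), helper455: the local factors of a curve over `ℤ`, general lemmas

The coefficients `aV`, `eV` of the local factor at the places of good reduction, at the places with
`12 ∤ v(Δ)` and integral `j`, and at `3` with a nonsplit node; the Euler factor is determined by them.
The numbers of points of `y² = x³ + a x² + b x` and `y² = x³ - 2 a x² + (a² - 4 b) x` over a finite
field of odd characteristic are equal.
-/

set_option autoImplicit false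
set_option linter.unusedSectionVars false

open NumberField IsDedekindDomain WeierstrassCurve Pool.Agent.W189.NF
open Pool.Agent.Y698 (AP min_count v_unit)
open Pool.Agent.W97.MT (affCount ap)
open Pool.Agent.N54.MF

namespace Pool.Agent.N455.SN

/-! ### the numbers of points -/

section
variable {F : Type*} [Field F] [Fintype F] [DecidableEq F]

/-- the number of roots of a quadratic polynomial -/
theorem card_roots (hF : ringChar F ≠ 2) (w b : F) :
    ((Finset.univ.filter fun x : F => x ^ 2 - w * x + b = 0).card : ℤ) =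
      quadraticChar F (w ^ 2 - 4 * b) + 1 := by
  have h2 : (2 : F) ≠ 0 := Ring.two_ne_zero hF
  rw [← quadraticChar_card_sqrts hF]
  congr 1
  refine Finset.card_bij' (fun x _ => 2 * x - w) (fun y _ => (y + w) / 2) ?_ ?_ ?_ ?_
  · intro x hx
    have h := (Finset.mem_filter.1 hx).2
    rw [Set.mem_toFinset]
    show (2 * x - w) ^ 2 = w ^ 2 - 4 * b
    linear_combination 4 * h
  · intro y hy
    rw [Set.mem_toFinset] at hy
    have h : y ^ 2 = w ^ 2 - 4 * b := hy
    rw [Finset.mem_filter]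
    refine ⟨Finset.mem_univ _, ?_⟩
    field_simp
    linear_combination h
  · intro x _
    field_simp
    ring
  · intro y _
    field_simp
    ring

/-- the two character sums -/
theorem sum_isog (hF : ringChar F ≠ 2) (a : F) {b : F} (hb : b ≠ 0) :
    ∑ x : F, quadraticChar F (x ^ 3 + a * x ^ 2 + b * x) =
      ∑ x : F, quadraticChar F (x ^ 3 - 2 * a * x ^ 2 + (a ^ 2 - 4 * b) * x) := by
  -- the double sum
  have h1 : ∑ x : F, ∑ w : F, (if x ^ 2 - w * x + b = 0 then quadraticChar F (w + a) else 0) =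
      ∑ x : F, quadraticChar F (x ^ 3 + a * x ^ 2 + b * x) := by
    refine Finset.sum_congr rfl fun x _ => ?_
    by_cases hx : x = 0
    · subst hx
      have : ∀ w : F, ¬ ((0 : F) ^ 2 - w * 0 + b = 0) := by
        intro w h
        apply hb
        linear_combination h
      rw [Finset.sum_eq_zero fun w _ => if_neg (this w)]
      have e : (0 : F) ^ 3 + a * 0 ^ 2 + b * 0 = 0 := by ring
      rw [e, quadraticChar_zero]
    · rw [Finset.sum_eq_single (x + b / x)]
      · rw [if_pos (by field_simp; ring)]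
        have e : x ^ 3 + a * x ^ 2 + b * x = x ^ 2 * (x + b / x + a) := by
          field_simp
          ring
        rw [e, map_mul, quadraticChar_sq_one' hx, one_mul]
      · intro w _ hw
        refine if_neg fun h => hw ?_
        field_simp
        linear_combination -h
      · intro h
        exact absurd (Finset.mem_univ _) h
  have h2 : ∑ x : F, ∑ w : F, (if x ^ 2 - w * x + b = 0 then quadraticChar F (w + a) else 0) =
      ∑ w : F, (quadraticChar F (w ^ 2 - 4 * b) + 1) * quadraticChar F (w + a) := by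
    rw [Finset.sum_comm]
    refine Finset.sum_congr rfl fun w _ => ?_
    rw [← card_roots hF w b, ← Finset.sum_filter, Finset.sum_const, nsmul_eq_mul]
  have h3 : ∑ w : F, quadraticChar F (w + a) = 0 := by
    rw [← quadraticChar_sum_zero hF]
    exact Fintype.sum_equiv (Equiv.addRight a) _ _ fun _ => rfl
  rw [← h1, h2]
  simp only [add_mul, one_mul]
  rw [Finset.sum_add_distrib, h3, add_zero]
  refine Fintype.sum_equiv (Equiv.addRight a) _ _ fun w => ?_
  rw [← map_mul]
  congr 1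
  show _ = (w + a) ^ 3 - 2 * a * (w + a) ^ 2 + (a ^ 2 - 4 * b) * (w + a)
  ring

end

/-- the number of points of `y² = x³ + a x² + b x` over `𝔽_p` -/
theorem affCount_eq (p : ℕ) [hp : Fact p.Prime] (hp2 : p ≠ 2) (a b : ℤ) :
    (affCount ⟨0, a, 0, b, 0⟩ p : ℤ) = p + ∑ x : ZMod p,
      quadraticChar (ZMod p) (x ^ 3 + (a : ZMod p) * x ^ 2 + (b : ZMod p) * x) := by
  have hchar : ringChar (ZMod p) ≠ 2 := by rw [ZMod.ringChar_zmod_n]; exact hp2
  have e : affCount ⟨0, a, 0, b, 0⟩ p = Nat.card {q : ZMod p × ZMod p //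
      q.2 ^ 2 = (fun x : ZMod p => x ^ 3 + (a : ZMod p) * x ^ 2 + (b : ZMod p) * x) q.1} := by
    unfold affCount
    refine Nat.card_congr (Equiv.subtypeEquivRight fun P => ?_)
    rw [WeierstrassCurve.Affine.equation_iff]
    simp only [WeierstrassCurve.map, map_zero, eq_intCast]
    rw [← sub_eq_zero, ← sub_eq_zero (b := P.1 ^ 3 + (a : ZMod p) * P.1 ^ 2 + (b : ZMod p) * P.1)]
    refine Eq.congr_left ?_
    ring
  rw [e, Pool.Agent.H82R3.EK.card_points hchar
    (fun x : ZMod p => x ^ 3 + (a : ZMod p) * x ^ 2 + (b : ZMod p) * x), ZMod.card]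

/-- the traces of the 2-isogenous curves are equal -/
theorem ap_isog (p : ℕ) [hp : Fact p.Prime] (hp2 : p ≠ 2) (a b : ℤ) (hb : ¬ (p : ℤ) ∣ b) :
    ap ⟨0, a, 0, b, 0⟩ p = ap ⟨0, -2 * a, 0, a ^ 2 - 4 * b, 0⟩ p := by
  have hchar : ringChar (ZMod p) ≠ 2 := by rw [ZMod.ringChar_zmod_n]; exact hp2
  have hb0 : (b : ZMod p) ≠ 0 := fun h => hb ((ZMod.intCast_zmod_eq_zero_iff_dvd b p).1 h)
  unfold ap
  rw [affCount_eq p hp2, affCount_eq p hp2, sum_isog hchar (a : ZMod p) hb0]
  congr 2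
  refine Finset.sum_congr rfl fun x _ => ?_
  congr 1
  push_cast
  ring

/-! ### the local factors -/

section
variable (v : HeightOneSpectrum (𝓞 ℚ)) (V : WeierstrassCurve ℤ)

/-- the Euler factor is determined by its coefficients -/
theorem euler_eq {E E' : WeierstrassCurve ℚ} (v : HeightOneSpectrum (𝓞 ℚ))
    (h : aV E v = aV E' v ∧ eV E v = eV E' v) :
    (E.baseChange (v.adicCompletion ℚ)).localEulerFactor (v.adicCompletionIntegers ℚ) =
      (E'.baseChange (v.adicCompletion ℚ)).localEulerFactor (v.adicCompletionIntegers ℚ) := by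
  obtain ⟨ha, he⟩ := h
  unfold aV at ha
  unfold eV at he
  unfold WeierstrassCurve.localEulerFactor WeierstrassCurve.localPowerSeries
  rw [localPolynomial_eq, localPolynomial_eq, ha, he]

theorem Δ_L : ((V.map (Int.castRingHom ℚ)).baseChange (v.adicCompletion ℚ)).Δ =
    ((V.Δ : ℤ) : v.adicCompletion ℚ) := by
  rw [base_eq, map_Δ, map_Δ, eq_intCast, map_intCast]

theorem c₄_L : ((V.map (Int.castRingHom ℚ)).baseChange (v.adicCompletion ℚ)).c₄ =
    ((V.c₄ : ℤ) : v.adicCompletion ℚ) := by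
  rw [base_eq, map_c₄, map_c₄, eq_intCast, map_intCast]

/-- additive reduction: `v(Δ)` is not divisible by `12` and `j = k / d` is integral -/
theorem gen_add {m : ℕ} (hm : ¬ 12 ∣ m) {c : ℤ} (hc : ¬ (ng v : ℤ) ∣ c)
    (h : V.Δ = (ng v : ℤ) ^ m * c) {k d : ℤ} (hd : ¬ (ng v : ℤ) ∣ d)
    (h4 : V.c₄ ^ 3 * d = k * V.Δ) :
    aV (V.map (Int.castRingHom ℚ)) v = 0 ∧ eV (V.map (Int.castRingHom ℚ)) v = 0 := by
  have vd := vunit v hd
  have hd0 : ((d : ℤ) : v.adicCompletion ℚ) ≠ 0 := by
    intro h0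
    rw [h0, map_zero] at vd
    exact zero_ne_one vd
  refine min_add' (v.adicCompletionIntegers ℚ) (m := m) hm ?_
    (j := (k : v.adicCompletion ℚ) * (d : v.adicCompletion ℚ)⁻¹) ?_ ?_
  · rw [Δ_L, h]
    exact vint v m hc
  · rw [map_mul, map_inv₀, vd, inv_one, mul_one]
    have e : (k : v.adicCompletion ℚ) =
      algebraMap (Ov v) (v.adicCompletion ℚ) (k : Ov v) := (map_intCast _ _).symm
    rw [e]
    exact HeightOneSpectrum.valuation_le_one _ _
  · rw [Δ_L, c₄_L]
    have h5 := congrArg (fun z : ℤ => (z : v.adicCompletion ℚ)) h4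
    push_cast at h5
    rw [mul_assoc, mul_comm ((d : ℤ) : v.adicCompletion ℚ)⁻¹, ← mul_assoc,
      eq_mul_inv_iff_mul_eq₀ hd0]
    exact h5

/-- good reduction -/
theorem gen_good (hΔ : ¬ (ng v : ℤ) ∣ V.Δ) :
    aV (V.map (Int.castRingHom ℚ)) v = ap V (ng v) ∧ eV (V.map (Int.castRingHom ℚ)) v = ng v := by
  have hfin := finite_res v
  have hΔ' : IsUnit (V.map (Int.castRingHom (Ov v))).Δ := by
    rw [map_Δ, eq_intCast]
    exact (unit_int v _).2 hΔ
  obtain ⟨a1, a2⟩ := min_count (v.adicCompletionIntegers ℚ) hΔ' (base_eq v V)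
  have hcard : Nat.card (IsLocalRing.ResidueField (v.adicCompletionIntegers ℚ)) = ng v := by
    rw [card_res]
    exact nm_eq_ng v
  unfold aV eV
  rw [a1, a2, hcard]
  refine ⟨?_, rfl⟩
  unfold ap
  congr 2
  rw [WeierstrassCurve.map_map]
  have e : (IsLocalRing.residue (v.adicCompletionIntegers ℚ)).comp (Int.castRingHom (Ov v)) =
      Int.castRingHom (IsLocalRing.ResidueField (Ov v)) := RingHom.ext_int _ _
  rw [e, card_map V (res v)]
  rfl

/-- nonsplit multiplicative reduction at three -/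
theorem gen_three (h3 : ng v = 3) (h0 : V.Δ ≠ 0) (hΔ : (3 : ℤ) ∣ V.Δ)
    (hc : V.c₄ * V.c₆ % 3 = 1) :
    aV (V.map (Int.castRingHom ℚ)) v = -1 ∧ eV (V.map (Int.castRingHom ℚ)) v = 0 := by
  have hΔ0 : (V.map (Int.castRingHom (Ov v))).Δ ≠ 0 := by
    intro h
    have h5 := congrArg (algebraMap (Ov v) (v.adicCompletion ℚ)) h
    rw [map_Δ, eq_intCast, map_intCast, map_zero] at h5
    have h6 : algebraMap ℚ (v.adicCompletion ℚ) (V.Δ : ℚ) = 0 := by
      rw [map_intCast]
      exact h5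
    rw [map_eq_zero] at h6
    exact h0 (by exact_mod_cast h6)
  have hΔu : ¬ IsUnit (V.map (Int.castRingHom (Ov v))).Δ := by
    rw [map_Δ, eq_intCast, unit_int, not_not, h3]
    exact hΔ
  have hc4 : IsUnit (V.map (Int.castRingHom (Ov v))).c₄ := by
    rw [map_c₄, eq_intCast, unit_int, h3]
    intro h
    have h' : (3 : ℤ) ∣ V.c₄ * V.c₆ := Dvd.dvd.mul_right (by exact_mod_cast h) _
    omega
  refine min_mult (v.adicCompletionIntegers ℚ) hΔ0 hΔu hc4 ?_ (base_eq v V)
  intro s w hw h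
  rw [map_c₄, map_c₆, eq_intCast, eq_intCast, ← Int.cast_mul, map_intCast] at h
  have h5 := congrArg ((res v).trans (ZMod.ringEquivCongr h3)) h
  rw [map_pow, map_mul, map_pow, map_neg, map_intCast] at h5
  have hw' : ((res v).trans (ZMod.ringEquivCongr h3)) w ≠ 0 := by
    rw [Ne, map_eq_zero_iff _ (RingEquiv.injective _)]
    exact hw
  have h6 : ((V.c₄ * V.c₆ : ℤ) : ZMod 3) = 1 := by
    have h7 : ((V.c₄ * V.c₆ : ℤ) : ZMod 3) = ((1 : ℤ) : ZMod 3) :=
      (ZMod.intCast_eq_intCast_iff _ _ 3).2 hc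
    rw [h7, Int.cast_one]
  rw [h6] at h5
  generalize ((res v).trans (ZMod.ringEquivCongr h3)) s = s' at h5
  generalize ((res v).trans (ZMod.ringEquivCongr h3)) w = w' at h5 hw'
  revert s' w'
  decide

/-- `p` divides a squarefree `n` exactly once -/
theorem sq_factor {p n : ℕ} (hp : p.Prime) (hsq : Squarefree n) (hd : p ∣ n) :
    ∃ m : ℕ, n = p * m ∧ ¬ p ∣ m := by
  obtain ⟨m, hm⟩ := hd
  refine ⟨m, hm, fun h => ?_⟩
  obtain ⟨k, hk⟩ := h
  have : p * p ∣ n := ⟨k, by rw [hm, hk]; ring⟩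
  have := hsq _ this
  exact hp.one_lt.ne' (Nat.isUnit_iff.1 this)

/-- a prime `p ≠ 2, 3` not dividing `m` does not divide `±2^i 3^j m^k` -/
theorem ndvd23 {p : ℕ} (hp : p.Prime) (hp2 : p ≠ 2) (hp3 : p ≠ 3) (i j k : ℕ) {m : ℤ}
    (hm : ¬ (p : ℤ) ∣ m) : ¬ (p : ℤ) ∣ 2 ^ i * 3 ^ j * m ^ k := by
  intro h
  have hz : Prime ((p : ℕ) : ℤ) := Nat.prime_iff_prime_int.1 hp
  rcases hz.dvd_or_dvd h with h3 | h3
  · rcases hz.dvd_or_dvd h3 with h5 | h5
    · have h6 : p ∣ 2 := by exact_mod_cast hz.dvd_of_dvd_pow h5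
      exact hp2 ((Nat.prime_dvd_prime_iff_eq hp Nat.prime_two).1 h6)
    · have h6 : p ∣ 3 := by exact_mod_cast hz.dvd_of_dvd_pow h5
      exact hp3 ((Nat.prime_dvd_prime_iff_eq hp Nat.prime_three).1 h6)
  · exact hm (hz.dvd_of_dvd_pow h3)

end

end Pool.Agent.N455.SN
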