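import Pool.Agent.N818.SN.Stm
import Pool.Agent.N455.SN.Gen

/-!
# SN-LB (helper455): `WB n` and `WA n` have the same Euler factors
-/

set_option autoImplicit false
set_option linter.unusedSectionVars false

open NumberField IsDedekindDomain WeierstrassCurve Pool.Agent.W189.NF
open Pool.Agent.W97.MT (affCount ap)
open Pool.Agent.N54.MF
open Pool.Agent.N818.SN
open Pool.Agent.N971.MF (W)
open Pool.Agent.N971.MF.EUL (WQ fac_two fac_dvd fac_three fac_good)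

namespace Pool.Agent.N455.SN

/-- the two descriptions of the curve -/
theorem WA_eq (n : ℕ) : WA n = W n := by
  unfold WA W
  congr 1 <;> ring

theorem base_WA (n : ℕ) : base (WA n) ℚ = WQ n := by
  rw [WA_eq]

theorem WB_Δ (n : ℕ) : (WB n).Δ = -48 * (n : ℤ) ^ 6 := by
  simp only [WB, WeierstrassCurve.Δ, WeierstrassCurve.b₂, WeierstrassCurve.b₄,
    WeierstrassCurve.b₆, WeierstrassCurve.b₈]
  ring

theorem WB_c₄ (n : ℕ) : (WB n).c₄ = -32 * (n : ℤ) ^ 2 := by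
  simp only [WB, WeierstrassCurve.c₄, WeierstrassCurve.b₂, WeierstrassCurve.b₄]
  ring

theorem WB_c₆ (n : ℕ) : (WB n).c₆ = 224 * (n : ℤ) ^ 3 := by
  simp only [WB, WeierstrassCurve.c₆, WeierstrassCurve.b₂, WeierstrassCurve.b₄,
    WeierstrassCurve.b₆]
  ring

section
variable (v : HeightOneSpectrum (𝓞 ℚ)) {n : ℕ}

theorem WB_two (hn : n % 24 = 11) (h2 : ng v = 2) :
    aV (base (WB n) ℚ) v = 0 ∧ eV (base (WB n) ℚ) v = 0 := by
  refine gen_add v (WB n) (m := 4) (by norm_num) (c := -3 * (n : ℤ) ^ 6) ?_ ?_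
    (k := 2048) (d := 3) ?_ ?_
  · rw [h2]
    intro h
    have h1 : (2 : ℤ) ∣ -3 * (n : ℤ) ^ 6 := by exact_mod_cast h
    rcases Int.prime_two.dvd_or_dvd h1 with h3 | h3
    · norm_num at h3
    · have := Int.prime_two.dvd_of_dvd_pow h3
      omega
  · rw [WB_Δ, h2]
    push_cast
    ring
  · rw [h2]
    norm_num
  · rw [WB_Δ, WB_c₄]
    ring

theorem WB_dvd (hsq : Squarefree n) (hn : n % 24 = 11) (hd : ng v ∣ n) :
    aV (base (WB n) ℚ) v = 0 ∧ eV (base (WB n) ℚ) v = 0 := by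
  have hp := ng_prime v
  have hp2 : ng v ≠ 2 := by
    intro h; rw [h] at hd; omega
  have hp3 : ng v ≠ 3 := by
    intro h; rw [h] at hd; omega
  obtain ⟨m, hm, hpm⟩ := sq_factor hp hsq hd
  have hpm' : ¬ ((ng v : ℕ) : ℤ) ∣ (m : ℤ) := by exact_mod_cast hpm
  refine gen_add v (WB n) (m := 6) (by norm_num) (c := -(2 ^ 4 * 3 ^ 1 * (m : ℤ) ^ 6)) ?_ ?_
    (k := 2048) (d := 3) ?_ ?_
  · rw [dvd_neg]
    exact ndvd23 hp hp2 hp3 4 1 6 hpm'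
  · have : (n : ℤ) = (ng v : ℤ) * m := by exact_mod_cast hm
    rw [WB_Δ, this]
    ring
  · intro h
    have h6 : ng v ∣ 3 := by exact_mod_cast h
    exact hp3 ((Nat.prime_dvd_prime_iff_eq hp Nat.prime_three).1 h6)
  · rw [WB_Δ, WB_c₄]
    ring

theorem WB_three (hn : n % 24 = 11) (h3 : ng v = 3) :
    aV (base (WB n) ℚ) v = -1 ∧ eV (base (WB n) ℚ) v = 0 := by
  refine gen_three v (WB n) h3 ?_ ?_ ?_
  · rw [WB_Δ]
    have : (n : ℤ) ≠ 0 := by omega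
    positivity
  · rw [WB_Δ]
    exact ⟨-16 * (n : ℤ) ^ 6, by ring⟩
  · rw [WB_c₄, WB_c₆]
    obtain ⟨k, hk⟩ : ∃ k : ℕ, n = 3 * k + 2 := ⟨n / 3, by omega⟩
    have e : (-32 * (n : ℤ) ^ 2 * (224 * (n : ℤ) ^ 3)) % 3 = 1 := by
      have h1 : (n : ℤ) ≡ 2 [ZMOD 3] := by
        rw [hk]
        push_cast
        exact Int.ModEq.symm (Int.modEq_iff_dvd.2 ⟨k, by ring⟩)
      have h2 : (-32 * (n : ℤ) ^ 2 * (224 * (n : ℤ) ^ 3)) ≡
          (-32 * (2 : ℤ) ^ 2 * (224 * (2 : ℤ) ^ 3)) [ZMOD 3] :=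
        ((h1.pow 2).mul_left _).mul ((h1.pow 3).mul_left _)
      rw [h2]
      norm_num
    exact e

theorem WB_good (hp2 : ng v ≠ 2) (hp3 : ng v ≠ 3) (hd : ¬ ng v ∣ n) :
    aV (base (WB n) ℚ) v = ap (W n) (ng v) ∧ eV (base (WB n) ℚ) v = ng v := by
  have hp := ng_prime v
  have : Fact (ng v).Prime := ⟨hp⟩
  have hd' : ¬ ((ng v : ℕ) : ℤ) ∣ (n : ℤ) := by exact_mod_cast hd
  have h1 : ap (WB n) (ng v) = ap (W n) (ng v) := by
    have hb : ¬ ((ng v : ℕ) : ℤ) ∣ (n : ℤ) ^ 2 := fun h =>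
      hd' ((Nat.prime_iff_prime_int.1 hp).dvd_of_dvd_pow h)
    have h2 := ap_isog (ng v) hp2 (n : ℤ) ((n : ℤ) ^ 2) hb
    have e : W n = ⟨0, -2 * (n : ℤ), 0, (n : ℤ) ^ 2 - 4 * (n : ℤ) ^ 2, 0⟩ := by
      unfold W
      congr 1 <;> ring
    rw [e, ← h2]
    rfl
  rw [← h1]
  refine gen_good v (WB n) ?_
  rw [WB_Δ]
  intro h
  refine ndvd23 hp hp2 hp3 4 1 6 hd' ?_
  have e : (2 : ℤ) ^ 4 * 3 ^ 1 * (n : ℤ) ^ 6 = -(-48 * (n : ℤ) ^ 6) := by ring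
  rw [e, dvd_neg]
  exact h

end

/-- **SN-LB** -/
theorem t_LB : S_LB := by
  intro n hn v
  obtain ⟨hsq, hn⟩ := hn
  refine euler_eq v ?_
  rw [base_WA]
  by_cases h2 : ng v = 2
  · obtain ⟨a1, a2⟩ := WB_two v hn h2
    obtain ⟨b1, b2⟩ := fac_two v hn h2
    exact ⟨a1.trans b1.symm, a2.trans b2.symm⟩
  by_cases h3 : ng v = 3
  · obtain ⟨a1, a2⟩ := WB_three v hn h3
    obtain ⟨b1, b2⟩ := fac_three v hn h3
    exact ⟨a1.trans b1.symm, a2.trans b2.symm⟩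
  by_cases hd : ng v ∣ n
  · obtain ⟨a1, a2⟩ := WB_dvd v hsq hn hd
    obtain ⟨b1, b2⟩ := fac_dvd v hsq hn hd
    exact ⟨a1.trans b1.symm, a2.trans b2.symm⟩
  · obtain ⟨a1, a2⟩ := WB_good v (n := n) h2 h3 hd
    obtain ⟨b1, b2⟩ := fac_good v (n := n) h2 h3 hd
    exact ⟨a1.trans b1.symm, a2.trans b2.symm⟩

end Pool.Agent.N455.SN
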